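import Pool.Agent.H49.VPL.Bump
import Pool.Agent.H11.VP.Fam

/-!
Averages over a locally Lie group.
-/

namespace Pool.Agent.H11.VP

open Set Topology MeasureTheory Metric

/-- The average. -/
noncomputable def lAvg {G X L : Type} [Group G] [MulAction G X] [MeasurableSpace L]
    (μ : Measure L) (act : L → X → X) (W : Set X) (g : G) (b : L → ℝ) (x : X) : ℝ :=
  ∫ s, ({s | act s (g • x) ∈ W}.indicator (fun _ => (1 : ℝ)) s) * b s ∂μ

section

variable {G X L : Type} [Group G] [TopologicalSpace G] [Group L] [TopologicalSpace L]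
    [IsTopologicalGroup L] [PolishSpace L] [MeasurableSpace L] [BorelSpace L]
    [TopologicalSpace X] [PolishSpace X]
    [MulAction G X] [ContinuousSMul G X] {act : L → X → X} {μ : Measure L}
    {d : ℕ} {e : OpenPartialHomeomorph (Fin d → ℝ) L} {r : ℝ}

theorem measurable_lCoord (hre : closedBall (0 : Fin d → ℝ) r ⊆ e.source) :
    Measurable ((lBall e r).indicator e.symm) := by
  classical
  rw [← piecewise_eq_indicator]
  refine ContinuousOn.measurable_piecewise ?_ continuousOn_const
    (isCompact_lBall hre).isClosed.measurableSet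
  exact e.continuousOn_symm.mono fun s hs => (lBall_symm hre hs).2.2

theorem measurable_lBump (hre : closedBall (0 : Fin d → ℝ) r ⊆ e.source)
    {φ : (Fin d → ℝ) → ℝ} (hφ : Continuous φ) : Measurable (lBump e r φ) := by
  have h1 : lBump e r φ = (lBall e r).indicator
      (fun s => φ ((lBall e r).indicator e.symm s)) := by
    funext s
    by_cases hs : s ∈ lBall e r
    · rw [lBump, indicator_of_mem hs, indicator_of_mem hs, indicator_of_mem hs]
    · rw [lBump, indicator_of_notMem hs, indicator_of_notMem hs]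
  rw [h1]
  exact (hφ.measurable.comp (measurable_lCoord hre)).indicator
    (isCompact_lBall hre).isClosed.measurableSet

theorem lAvg_measurable [SFinite μ] [MeasurableSpace X] [BorelSpace X]
    (hcont : Continuous fun p : L × X => act p.1 p.2) {W : Set X} (hW : IsOpen W) (g : G)
    {b : L → ℝ} (hb : Measurable b) : Measurable (lAvg μ act W g b) := by
  have h1 : Continuous fun p : X × L => act p.2 (g • p.1) :=
    hcont.comp (continuous_snd.prodMk ((continuous_const_smul g).comp continuous_fst))
  have h2 : StronglyMeasurable (Function.uncurry fun (x : X) (s : L) =>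
      ({s | act s (g • x) ∈ W}.indicator (fun _ => (1 : ℝ)) s) * b s) := by
    apply Measurable.stronglyMeasurable
    have h3 : (Function.uncurry fun (x : X) (s : L) =>
        ({s | act s (g • x) ∈ W}.indicator (fun _ => (1 : ℝ)) s) * b s) =
        fun p : X × L =>
          ({p : X × L | act p.2 (g • p.1) ∈ W}.indicator (fun _ => (1 : ℝ)) p) *
            b p.2 := by
      funext p
      rfl
    rw [h3]
    apply Measurable.mul
    · apply measurable_const.indicator
      exact (hW.preimage h1).measurableSet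
    · exact hb.comp measurable_snd
  exact (h2.integral_prod_right (ν := μ)).measurable

/-- Along an orbit of `L`, by right invariance. -/
theorem lAvg_act [μ.IsMulRightInvariant] (W : Set X) (g : G) (b : L → ℝ) (x : X) (l : L)
    (hmul : ∀ s t x, act (s * t) x = act s (act t x))
    (hcomm : ∀ (g : G) s x, g • act s x = act s (g • x)) :
    lAvg μ act W g b (act l x) =
      ∫ s, ({s | act s (g • x) ∈ W}.indicator (fun _ => (1 : ℝ)) s) * b (s * l⁻¹) ∂μ := by
  unfold lAvg
  rw [← integral_mul_right_eq_self (μ := μ) (fun s => ({s | act s (g • x) ∈ W}.indicator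
    (fun _ => (1 : ℝ)) s) * b (s * l⁻¹)) l]
  congr 1
  funext s
  rw [mul_inv_cancel_right]
  congr 1
  apply indicator_one_congr
  change act s (g • act l x) ∈ W ↔ act (s * l) (g • x) ∈ W
  rw [hcomm, ← hmul]

theorem lAvg_contDiffAt [μ.IsMulRightInvariant] [IsFiniteMeasureOnCompacts μ]
    (hcont : Continuous fun p : L × X => act p.1 p.2)
    (hmul : ∀ s t x, act (s * t) x = act s (act t x))
    (hcomm : ∀ (g : G) s x, g • act s x = act s (g • x))
    (he : LieChart L d e) {R : ℝ} (hr : 0 < r) (hrR : r < R)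
    (hre : closedBall (0 : Fin d → ℝ) r ⊆ e.source)
    (hm : ∀ q ∈ ball (0 : Fin d → ℝ) R ×ˢ ball (0 : Fin d → ℝ) R,
      ContDiffAt ℝ 1 (fun p : (Fin d → ℝ) × (Fin d → ℝ) => e.symm (e p.1 * (e p.2)⁻¹)) q)
    (φ : ContDiffBump (0 : Fin d → ℝ)) (hφ : φ.rOut < r) {W : Set X} (hW : IsOpen W) (g : G)
    (x : X) : ContDiffAt ℝ 1 (fun t => lAvg μ act W g (lBump e r φ) (act (e t) x)) 0 := by
  have hK : IsCompact (lBall e r) := isCompact_lBall hre
  have hKm : MeasurableSet (lBall e r) := hK.isClosed.measurableSet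
  haveI : IsFiniteMeasure (μ.restrict (lBall e r)) :=
    ⟨by rw [Measure.restrict_apply_univ]; exact hK.measure_lt_top⟩
  set w : L → ℝ := {s | act s (g • x) ∈ W}.indicator (fun _ => (1 : ℝ)) with hw
  have hwm : Measurable w := by
    apply measurable_const.indicator
    exact (hW.preimage (hcont.comp (continuous_id.prodMk continuous_const))).measurableSet
  have hw1 : ∀ s, |w s| ≤ 1 := by
    intro s
    by_cases hs : s ∈ {s | act s (g • x) ∈ W}
    · rw [hw, indicator_of_mem hs, abs_one]
    · rw [hw, indicator_of_notMem hs, abs_zero]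
      exact zero_le_one
  have h1 := contDiffAt_param_integral (μ.restrict (lBall e r))
    (Φ := fun p : (Fin d → ℝ) × (Fin d → ℝ) => φ (e.symm (e p.1 * (e p.2)⁻¹))) hr hrR
    (fun q hq => φ.contDiffAt.comp q (hm q hq)) (measurable_lCoord hre) (fun s => ?_) hwm hw1
  · refine h1.congr_of_eventuallyEq ?_
    filter_upwards [lBump_translate he hre φ hφ] with t ht
    rw [lAvg_act (μ := μ) W g _ x (e t) hmul hcomm, ← integral_indicator hKm]
    congr 1
    funext s
    rw [ht s]
    by_cases hs : s ∈ lBall e r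
    · rw [indicator_of_mem hs, indicator_of_mem hs, indicator_of_mem hs, mul_comm]
    · rw [indicator_of_notMem hs, indicator_of_notMem hs, mul_zero]
  · by_cases hs : s ∈ lBall e r
    · rw [indicator_of_mem hs]
      exact (lBall_symm hre hs).1
    · rw [indicator_of_notMem hs]
      exact mem_closedBall_self hr.le

theorem lBump_nonneg (φ : ContDiffBump (0 : Fin d → ℝ)) (s : L) : 0 ≤ lBump e r φ s := by
  apply indicator_nonneg
  intro s _
  exact φ.nonneg

theorem lBump_integral_pos [IsFiniteMeasureOnCompacts μ] [μ.IsOpenPosMeasure]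
    (hre : closedBall (0 : Fin d → ℝ) r ⊆ e.source)
    (φ : ContDiffBump (0 : Fin d → ℝ)) (hφ : φ.rOut < r) : 0 < ∫ s, lBump e r φ s ∂μ := by
  have hK : IsCompact (lBall e r) := isCompact_lBall hre
  have hi : Integrable (lBump e r φ) μ := by
    have h1 : Integrable ((lBall e r).indicator fun _ => (1 : ℝ)) μ :=
      (integrable_indicator_iff hK.isClosed.measurableSet).2 (integrableOn_const hK.measure_lt_top.ne)
    refine h1.mono (measurable_lBump hre φ.continuous).aestronglyMeasurable ?_
    refine Filter.Eventually.of_forall fun s => ?_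
    rw [Real.norm_eq_abs, Real.norm_eq_abs]
    by_cases hs : s ∈ lBall e r
    · rw [lBump, indicator_of_mem hs, indicator_of_mem hs, abs_one, abs_of_nonneg φ.nonneg]
      exact φ.le_one
    · rw [lBump, indicator_of_notMem hs, indicator_of_notMem hs]
  rw [integral_pos_iff_support_of_nonneg (lBump_nonneg φ) hi]
  have hsub : e '' ball 0 φ.rIn ⊆ Function.support (lBump e r φ) := by
    rintro s ⟨u, hu, rfl⟩
    have hu' : u ∈ closedBall (0 : Fin d → ℝ) r :=
      closedBall_subset_closedBall (φ.rIn_lt_rOut.le.trans hφ.le) (ball_subset_closedBall hu)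
    have h1 : e u ∈ lBall e r := ⟨u, hu', rfl⟩
    rw [Function.mem_support, lBump, indicator_of_mem h1, e.left_inv (hre hu'),
      φ.one_of_mem_closedBall (ball_subset_closedBall hu)]
    exact one_ne_zero
  have hre' : closedBall (0 : Fin d → ℝ) φ.rIn ⊆ e.source :=
    (closedBall_subset_closedBall (φ.rIn_lt_rOut.le.trans hφ.le)).trans hre
  have h2 : 0 < μ (e '' ball 0 φ.rIn) :=
    (isOpen_lImage hre').measure_pos μ ⟨e 0, 0, mem_ball_self φ.rIn_pos, rfl⟩
  exact h2.trans_le (measure_mono hsub)

/-- A set `O` containing the support and a set `O'` missing it are distinguished. -/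
theorem lBump_distinguish [IsFiniteMeasureOnCompacts μ] [μ.IsOpenPosMeasure]
    (hre : closedBall (0 : Fin d → ℝ) r ⊆ e.source)
    (φ : ContDiffBump (0 : Fin d → ℝ)) (hφ : φ.rOut < r) {O O' : Set L}
    (hO : lBall e φ.rOut ⊆ O) (hO' : Disjoint (lBall e φ.rOut) O') :
    (∫ s, (O.indicator (fun _ => (1 : ℝ)) s) * lBump e r φ s ∂μ) ≠
      ∫ s, (O'.indicator (fun _ => (1 : ℝ)) s) * lBump e r φ s ∂μ := by
  have hz : ∀ s, s ∉ lBall e φ.rOut → lBump e r φ s = 0 := by
    intro s hs
    by_cases hs' : s ∈ lBall e r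
    · rw [lBump, indicator_of_mem hs']
      apply φ.zero_of_le_dist
      by_contra hlt
      exact hs (mem_lBall (lBall_symm hre hs').2.2 (mem_closedBall.2 (not_le.1 hlt).le))
    · rw [lBump, indicator_of_notMem hs']
  have e1 : (∫ s, (O.indicator (fun _ => (1 : ℝ)) s) * lBump e r φ s ∂μ) =
      ∫ s, lBump e r φ s ∂μ := by
    congr 1
    funext s
    by_cases hs : s ∈ lBall e φ.rOut
    · rw [indicator_of_mem (hO hs), one_mul]
    · rw [hz s hs, mul_zero]
  have e2 : (∫ s, (O'.indicator (fun _ => (1 : ℝ)) s) * lBump e r φ s ∂μ) = 0 := by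
    have : (fun s => (O'.indicator (fun _ => (1 : ℝ)) s) * lBump e r φ s) = fun _ => 0 := by
      funext s
      by_cases hs : s ∈ lBall e φ.rOut
      · rw [indicator_of_notMem (disjoint_left.1 hO' hs), zero_mul]
      · rw [hz s hs, mul_zero]
    rw [this, integral_zero]
  rw [e1, e2]
  exact (lBump_integral_pos hre φ hφ).ne'

end

/-- Small bump functions. -/
noncomputable def lamBump (d : ℕ) {r : ℝ} (hr : 0 < r) (lam : ℕ) :
    ContDiffBump (0 : Fin d → ℝ) where
  rIn := r / (4 * ((lam : ℝ) + 1))
  rOut := r / (2 * ((lam : ℝ) + 1))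
  rIn_pos := by positivity
  rIn_lt_rOut := by
    apply div_lt_div_of_pos_left hr
    · positivity
    · have : (0 : ℝ) < (lam : ℝ) + 1 := by positivity
      linarith

theorem lamBump_rOut_lt (d : ℕ) {r : ℝ} (hr : 0 < r) (lam : ℕ) :
    (lamBump d hr lam).rOut < r := by
  change r / (2 * ((lam : ℝ) + 1)) < r
  apply div_lt_self hr
  have : (0 : ℝ) ≤ (lam : ℝ) := Nat.cast_nonneg lam
  linarith

theorem exists_lamBump (d : ℕ) {r : ℝ} (hr : 0 < r) {ε : ℝ} (hε : 0 < ε) :
    ∃ lam, (lamBump d hr lam).rOut < ε := by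
  obtain ⟨lam, hlam⟩ := exists_nat_one_div_lt (div_pos hε hr)
  refine ⟨lam, ?_⟩
  change r / (2 * ((lam : ℝ) + 1)) < ε
  have h1 : (0 : ℝ) < (lam : ℝ) + 1 := by positivity
  rw [div_lt_div_iff₀ h1 hr] at hlam
  rw [div_lt_iff₀ (by positivity)]
  nlinarith

end Pool.Agent.H11.VP
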