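import Mathlib

/-!
An integral depending on a parameter, over a finite measure, of a continuously differentiable
function.
-/

namespace Pool.Agent.H11.VP

open Set Topology MeasureTheory Metric

section

variable {E : Type} [NormedAddCommGroup E] [NormedSpace ℝ E] [FiniteDimensional ℝ E]
  [MeasurableSpace E] [BorelSpace E]

/-- Composition of a map which is continuous on a ball with a measurable map into it. -/
theorem measurable_comp_of_continuousOn {Ω F : Type} [MeasurableSpace Ω] [TopologicalSpace F]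
    [MeasurableSpace F] [BorelSpace F] {S : Set E} {f : E → F} (hf : ContinuousOn f S)
    {p : Ω → E} (hp : Measurable p) (hpS : ∀ ω, p ω ∈ S) : Measurable fun ω => f (p ω) := by
  have h1 : Measurable fun ω => (⟨p ω, hpS ω⟩ : S) := hp.subtype_mk
  have h2 : Continuous (S.restrict f) := continuousOn_iff_continuous_restrict.1 hf
  exact h2.measurable.comp h1

theorem contDiffAt_param_integral {Ω : Type} [MeasurableSpace Ω] (μ : Measure Ω)
    [IsFiniteMeasure μ] {Φ : E × E → ℝ} {R r : ℝ} (hr : 0 < r) (hrR : r < R)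
    (hΦ : ∀ q ∈ ball (0 : E) R ×ˢ ball (0 : E) R, ContDiffAt ℝ 1 Φ q)
    {p : Ω → E} (hp : Measurable p) (hpr : ∀ ω, p ω ∈ closedBall (0 : E) r)
    {w : Ω → ℝ} (hw : Measurable w) (hw1 : ∀ ω, |w ω| ≤ 1) :
    ContDiffAt ℝ 1 (fun t => ∫ ω, Φ (p ω, t) * w ω ∂μ) 0 := by
  have hS : closedBall (0 : E) r ×ˢ closedBall (0 : E) r ⊆ ball (0 : E) R ×ˢ ball (0 : E) R :=
    prod_mono (closedBall_subset_ball hrR) (closedBall_subset_ball hrR)
  set D : E × E → (E →L[ℝ] ℝ) := fun q => (fderiv ℝ Φ q).comp (ContinuousLinearMap.inr ℝ E E)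
    with hD
  have hDc : ContinuousOn D (closedBall (0 : E) r ×ˢ closedBall (0 : E) r) := by
    intro q hq
    have h1 : ContinuousAt (fderiv ℝ Φ) q := (hΦ q (hS hq)).continuousAt_fderiv (by norm_num)
    have h2 : ContinuousAt D q :=
      h1.clm_comp (continuousAt_const (y := ContinuousLinearMap.inr ℝ E E))
    exact h2.continuousWithinAt
  have hDd : ∀ q ∈ ball (0 : E) R ×ˢ ball (0 : E) R,
      HasFDerivAt (fun t => Φ (q.1, t)) (D q) q.2 := by
    intro q hq
    have h1 : HasFDerivAt Φ (fderiv ℝ Φ q) q :=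
      ((hΦ q hq).differentiableAt (by norm_num)).hasFDerivAt
    exact h1.comp q.2 (hasFDerivAt_prodMk_right q.1 q.2)
  have hcomp : IsCompact (closedBall (0 : E) r ×ˢ closedBall (0 : E) r) :=
    (isCompact_closedBall _ _).prod (isCompact_closedBall _ _)
  obtain ⟨C, hC⟩ := (hcomp.image_of_continuousOn hDc.norm).bddAbove
  obtain ⟨C', hC'⟩ := (hcomp.image_of_continuousOn
    (f := fun q => ‖Φ q‖) (fun q hq => ((hΦ q (hS hq)).continuousAt.norm).continuousWithinAt)).bddAbove
  have hC1 : ∀ t ∈ ball (0 : E) r, ∀ ω, ‖D (p ω, t)‖ ≤ C := fun t ht ω =>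
    hC (mem_image_of_mem _ ⟨hpr ω, ball_subset_closedBall ht⟩)
  have hC2 : ∀ t ∈ ball (0 : E) r, ∀ ω, ‖Φ (p ω, t)‖ ≤ C' := fun t ht ω =>
    hC' (mem_image_of_mem _ ⟨hpr ω, ball_subset_closedBall ht⟩)
  have hmΦ : ∀ t ∈ ball (0 : E) r, Measurable fun ω => Φ (p ω, t) * w ω := by
    intro t ht
    refine Measurable.mul ?_ hw
    refine measurable_comp_of_continuousOn (S := closedBall 0 r) (f := fun u => Φ (u, t)) ?_ hp hpr
    intro u hu
    have h1 : ContinuousAt Φ (u, t) := (hΦ (u, t) (hS ⟨hu, ball_subset_closedBall ht⟩)).continuousAt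
    have h2 : ContinuousAt (fun u : E => (u, t)) u := by fun_prop
    exact (ContinuousAt.comp (f := fun u : E => (u, t)) h1 h2).continuousWithinAt
  have hmD : ∀ t ∈ ball (0 : E) r, Measurable fun ω => w ω • D (p ω, t) := by
    intro t ht
    refine Measurable.smul hw ?_
    refine measurable_comp_of_continuousOn (S := closedBall 0 r) (f := fun u => D (u, t)) ?_ hp hpr
    intro u hu
    have h1 : ContinuousAt (fderiv ℝ Φ) (u, t) :=
      (hΦ (u, t) (hS ⟨hu, ball_subset_closedBall ht⟩)).continuousAt_fderiv (by norm_num)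
    have h3 : ContinuousAt D (u, t) :=
      h1.clm_comp (continuousAt_const (y := ContinuousLinearMap.inr ℝ E E))
    have h2 : ContinuousAt (fun u : E => (u, t)) u := by fun_prop
    exact (ContinuousAt.comp (f := fun u : E => (u, t)) h3 h2).continuousWithinAt
  have hbD : ∀ t ∈ ball (0 : E) r, ∀ ω, ‖w ω • D (p ω, t)‖ ≤ C := by
    intro t ht ω
    rw [norm_smul, Real.norm_eq_abs]
    calc |w ω| * ‖D (p ω, t)‖ ≤ 1 * C :=
          mul_le_mul (hw1 ω) (hC1 t ht ω) (norm_nonneg _) zero_le_one
      _ = C := one_mul C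
  rw [contDiffAt_one_iff]
  refine ⟨fun t => ∫ ω, w ω • D (p ω, t) ∂μ, ball 0 r, ball_mem_nhds _ hr, ?_, fun t ht => ?_⟩
  · refine continuousOn_of_dominated (bound := fun _ => C) (fun t ht => ?_) (fun t ht => ?_)
      (integrable_const C) ?_
    · exact (hmD t ht).aestronglyMeasurable
    · exact Filter.Eventually.of_forall fun ω => hbD t ht ω
    · refine Filter.Eventually.of_forall fun ω => ?_
      refine ContinuousOn.const_smul ?_ (w ω)
      intro t ht
      have h1 : ContinuousAt (fderiv ℝ Φ) (p ω, t) :=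
        (hΦ (p ω, t) (hS ⟨hpr ω, ball_subset_closedBall ht⟩)).continuousAt_fderiv (by norm_num)
      have h3 : ContinuousAt D (p ω, t) :=
        h1.clm_comp (continuousAt_const (y := ContinuousLinearMap.inr ℝ E E))
      have h2 : ContinuousAt (fun t : E => (p ω, t)) t := by fun_prop
      exact (ContinuousAt.comp (f := fun t : E => (p ω, t)) h3 h2).continuousWithinAt
  · refine hasFDerivAt_integral_of_dominated_of_fderiv_le (F := fun t ω => Φ (p ω, t) * w ω)
      (F' := fun t ω => w ω • D (p ω, t)) (bound := fun _ => C)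
      (isOpen_ball.mem_nhds ht) ?_ ?_ ?_ ?_ (integrable_const C) ?_
    · filter_upwards [isOpen_ball.mem_nhds ht] with t' ht'
      exact (hmΦ t' ht').aestronglyMeasurable
    · refine Integrable.of_bound (hmΦ t ht).aestronglyMeasurable C' ?_
      refine Filter.Eventually.of_forall fun ω => ?_
      rw [norm_mul, Real.norm_eq_abs (w ω)]
      calc ‖Φ (p ω, t)‖ * |w ω| ≤ C' * 1 :=
            mul_le_mul (hC2 t ht ω) (hw1 ω) (abs_nonneg _) ((norm_nonneg _).trans (hC2 t ht ω))
        _ = C' := mul_one C'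
    · exact (hmD t ht).aestronglyMeasurable
    · exact Filter.Eventually.of_forall fun ω t' ht' => hbD t' ht' ω
    · refine Filter.Eventually.of_forall fun ω t' ht' => ?_
      have h1 := hDd (p ω, t') ⟨closedBall_subset_ball hrR (hpr ω),
        closedBall_subset_ball hrR (ball_subset_closedBall ht')⟩
      exact h1.mul_const (w ω)

end

end Pool.Agent.H11.VP
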