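import Pool.Agent.H11.VP.LDefs
import Pool.Agent.H49.VPL.Param

/-!
Bump functions in a chart of a locally Lie group, and their right translates.
-/

namespace Pool.Agent.H11.VP

open Set Topology MeasureTheory Metric

theorem exists_lRadius {L : Type} [Group L] [TopologicalSpace L] {d : ℕ}
    {e : OpenPartialHomeomorph (Fin d → ℝ) L} (he : LieChart L d e) :
    ∃ R r : ℝ, 0 < r ∧ r < R ∧ closedBall (0 : Fin d → ℝ) r ⊆ e.source ∧
      ∀ q ∈ ball (0 : Fin d → ℝ) R ×ˢ ball (0 : Fin d → ℝ) R,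
        ContDiffAt ℝ 1 (fun p : (Fin d → ℝ) × (Fin d → ℝ) => e.symm (e p.1 * (e p.2)⁻¹)) q := by
  have h1 := he.contDiffAt.eventually (by norm_num)
  obtain ⟨R, hR, hR1⟩ := Metric.mem_nhds_iff.1 h1
  obtain ⟨r, hr, hr1⟩ := Metric.mem_nhds_iff.1 (e.open_source.mem_nhds he.zero_mem)
  refine ⟨R, min (R / 2) (r / 2), by positivity, ?_, ?_, ?_⟩
  · exact (min_le_left _ _).trans_lt (by linarith)
  · refine (closedBall_subset_ball ?_).trans hr1
    exact (min_le_right _ _).trans_lt (by linarith)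
  · intro q hq
    apply hR1
    rw [ball_prod_same] at hq
    exact hq

/-- The compact neighbourhood of `1` given by a chart. -/
def lBall {L : Type} [TopologicalSpace L] {d : ℕ} (e : OpenPartialHomeomorph (Fin d → ℝ) L)
    (r : ℝ) : Set L := e '' closedBall 0 r

/-- A function near `0` transported to `L`. -/
noncomputable def lBump {L : Type} [TopologicalSpace L] {d : ℕ}
    (e : OpenPartialHomeomorph (Fin d → ℝ) L) (r : ℝ) (φ : (Fin d → ℝ) → ℝ) : L → ℝ :=
  (lBall e r).indicator fun s => φ (e.symm s)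

section

variable {L : Type} [Group L] [TopologicalSpace L] {d : ℕ}
    {e : OpenPartialHomeomorph (Fin d → ℝ) L} {r : ℝ}

theorem lBall_symm (hre : closedBall (0 : Fin d → ℝ) r ⊆ e.source) {s : L} (hs : s ∈ lBall e r) :
    e.symm s ∈ closedBall (0 : Fin d → ℝ) r ∧ e (e.symm s) = s ∧ s ∈ e.target := by
  obtain ⟨u, hu, rfl⟩ := hs
  rw [e.left_inv (hre hu)]
  exact ⟨hu, rfl, e.map_source (hre hu)⟩

theorem mem_lBall {s : L} (hs : s ∈ e.target) (h : e.symm s ∈ closedBall (0 : Fin d → ℝ) r) :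
    s ∈ lBall e r :=
  ⟨e.symm s, h, e.right_inv hs⟩

theorem isCompact_lBall (hre : closedBall (0 : Fin d → ℝ) r ⊆ e.source) :
    IsCompact (lBall e r) :=
  (isCompact_closedBall _ _).image_of_continuousOn (e.continuousOn.mono hre)

theorem isOpen_lImage (hre : closedBall (0 : Fin d → ℝ) r ⊆ e.source) :
    IsOpen (e '' ball 0 r) :=
  e.isOpen_image_of_subset_source isOpen_ball (ball_subset_closedBall.trans hre)

theorem lBall_mem_nhds (he : LieChart L d e) (hr : 0 < r)
    (hre : closedBall (0 : Fin d → ℝ) r ⊆ e.source) : lBall e r ∈ 𝓝 (1 : L) := by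
  apply Filter.mem_of_superset ((isOpen_lImage hre).mem_nhds ⟨0, mem_ball_self hr, he.map_zero⟩)
  exact image_mono ball_subset_closedBall

theorem tendsto_chart (he : LieChart L d e) : Filter.Tendsto e (𝓝 0) (𝓝 1) := by
  have h1 := e.continuousAt he.zero_mem
  rw [ContinuousAt, he.map_zero] at h1
  exact h1

/-- Right translates of a bump function, in the chart. -/
theorem lBump_translate [IsTopologicalGroup L] (he : LieChart L d e)
    (hre : closedBall (0 : Fin d → ℝ) r ⊆ e.source) (φ : ContDiffBump (0 : Fin d → ℝ))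
    (hφ : φ.rOut < r) :
    ∀ᶠ t in 𝓝 (0 : Fin d → ℝ), ∀ s : L, lBump e r φ (s * (e t)⁻¹) =
      (lBall e r).indicator (fun s => φ (e.symm (e (e.symm s) * (e t)⁻¹))) s := by
  have hK : IsCompact (lBall e r) := isCompact_lBall hre
  have hKt : lBall e r ⊆ e.target := fun s hs => (lBall_symm hre hs).2.2
  obtain ⟨V1, hV1, hV1'⟩ := compact_open_separated_mul_right hK e.open_target hKt
  have hre' : closedBall (0 : Fin d → ℝ) φ.rOut ⊆ e.source :=
    (closedBall_subset_closedBall hφ.le).trans hre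
  obtain ⟨V2, hV2, hV2'⟩ := compact_open_separated_mul_right (isCompact_lBall hre')
    (isOpen_lImage hre) (image_mono (closedBall_subset_ball hφ))
  have h1 : ∀ᶠ t in 𝓝 (0 : Fin d → ℝ), (e t)⁻¹ ∈ V1 := by
    have := (tendsto_chart he).inv
    rw [inv_one] at this
    exact this.eventually hV1
  have h2 : ∀ᶠ t in 𝓝 (0 : Fin d → ℝ), e t ∈ V2 := (tendsto_chart he).eventually hV2
  filter_upwards [h1, h2] with t ht1 ht2 s
  by_cases hs : s ∈ lBall e r
  · rw [indicator_of_mem hs, (lBall_symm hre hs).2.1]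
    have ht : s * (e t)⁻¹ ∈ e.target := hV1' (mul_mem_mul hs ht1)
    by_cases hy : s * (e t)⁻¹ ∈ lBall e r
    · rw [lBump, indicator_of_mem hy]
    · rw [lBump, indicator_of_notMem hy]
      symm
      apply φ.zero_of_le_dist
      by_contra hlt
      exact hy (mem_lBall ht (mem_closedBall.2 ((not_le.1 hlt).le.trans hφ.le)))
  · rw [indicator_of_notMem hs]
    by_cases hy : s * (e t)⁻¹ ∈ lBall e r
    · rw [lBump, indicator_of_mem hy]
      apply φ.zero_of_le_dist
      by_contra hlt
      apply hs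
      have h3 : s * (e t)⁻¹ ∈ lBall e φ.rOut :=
        mem_lBall (hKt hy) (mem_closedBall.2 (not_le.1 hlt).le)
      have h4 : s * (e t)⁻¹ * e t ∈ e '' ball 0 r := hV2' (mul_mem_mul h3 ht2)
      rw [inv_mul_cancel_right] at h4
      exact (image_mono ball_subset_closedBall) h4
    · rw [lBump, indicator_of_notMem hy]

end

end Pool.Agent.H11.VP
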